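import Pool.Agent.MVS.Stmts
import Pool.Agent.Helper36_RF.Chr

/-!
# MVS row EQV (MP_33f2b9_gt): equivariance of the Christoffel symbols
-/

noncomputable section

open scoped ContDiff Topology RealInnerProductSpace
open Set MeasureTheory

namespace Pool.Agent.MVS.H39

open Pool.Agent.RF Pool.Agent.MVS

/-- evaluation of a bilinear form -/
def evB (v w : E5) : Bil E5 →L[ℝ] ℝ :=
  (ContinuousLinearMap.apply ℝ ℝ w).comp (ContinuousLinearMap.apply ℝ (E5 →L[ℝ] ℝ) v)

theorem evB_apply (v w : E5) (B : Bil E5) : evB v w B = B v w := rfl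

theorem comp_clm {X Y Z : Type} [NormedAddCommGroup X] [NormedSpace ℝ X] [NormedAddCommGroup Y]
    [NormedSpace ℝ Y] [NormedAddCommGroup Z] [NormedSpace ℝ Z] (L : Y →L[ℝ] Z) {f : X → Y}
    {f' : X →L[ℝ] Y} {x : X} (h : HasFDerivAt f f' x) :
    HasFDerivAt (fun y => L (f y)) (L.comp f') x :=
  L.hasFDerivAt.comp x h

theorem eqv : RotStatement → EqvStatement := by
  rintro ⟨hsum, -, -, -, hPP, -, hPN, hNP, hR0, -, hRinv, -, hRd, hC⟩ G κ a b hS
  have hG : IsMetricOn G (Om (Fin 5)) := hS.cyl.metric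
  obtain ⟨hker, hPA, hfix, hfix'⟩ := hC κ a b hS.cs
  have hRinv' : ∀ t x, Rt a b t (Rt a b (-t) x) = x := by
    intro t x
    have := hRinv a b (-t) x
    rwa [neg_neg] at this
  have hOm : ∀ t x, x ∈ Om (Fin 5) → Rt a b t x ∈ Om (Fin 5) := by
    intro t x hx h0
    apply hx
    have h1 := hRinv a b t x
    have h0' : Rt a b t x = 0 := h0
    rw [h0', map_zero] at h1
    exact h1.symm
  have h1 : ∀ t : ℝ, ∀ x ∈ Om (Fin 5), ∀ v w,
      chris G (Rt a b t x) (Rt a b t v) (Rt a b t w) = Rt a b t (chris G x v w) := by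
    intro t x hx v w
    have hRx := hOm t x hx
    have hD : ∀ u v w : E5, fderiv ℝ G (Rt a b t x) (Rt a b t u) (Rt a b t v) (Rt a b t w) =
        fderiv ℝ G x u v w := by
      intro u v w
      have e : (fun y => evB (Rt a b t v) (Rt a b t w) (G (Rt a b t y))) =ᶠ[𝓝 x]
          fun y => evB v w (G y) := by
        filter_upwards [hG.isOpen.mem_nhds hx] with y hy
        rw [evB_apply, evB_apply]
        exact hS.inv t y hy v w
      have d1 : HasFDerivAt (fun y => G (Rt a b t y))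
          ((fderiv ℝ G (Rt a b t x)).comp (Rt a b t)) x :=
        HasFDerivAt.comp (g := G) (g' := fderiv ℝ G (Rt a b t x)) (f := ⇑(Rt a b t))
          (f' := Rt a b t) x (hG.diffAt hRx).hasFDerivAt (Rt a b t).hasFDerivAt
      have d2 := comp_clm (Y := Bil E5) (evB (Rt a b t v) (Rt a b t w)) d1
      have d3 := comp_clm (Y := Bil E5) (evB v w) (hG.diffAt hx).hasFDerivAt
      have d4 := (d3.congr_of_eventuallyEq e).unique d2
      exact (congrArg (fun L : E5 →L[ℝ] ℝ => L u) d4).symm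
    rw [hG.chris_eq_iff hRx]
    intro z
    obtain ⟨z', rfl⟩ : ∃ z', Rt a b t z' = z := ⟨_, hRinv' t z⟩
    rw [hS.inv t x hx, hG.chris_spec hx, hD, hD, hD]
  refine ⟨h1, ?_, ?_⟩
  · intro σ hσ hσ0 v w hv hw
    have hA : ∀ w, G σ v (Ag a b w) = 0 := by
      intro w
      have hc : ∀ t, G σ v (Rt a b t w) = G σ v w := by
        intro t
        have := hS.inv t σ hσ0 v w
        rwa [hfix t σ hσ, hfix t v hv] at this
      have d1 : HasDerivAt (fun t => G σ v (Rt a b t w)) (G σ v (Ag a b (Rt a b 0 w))) 0 :=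
        (G σ v).hasFDerivAt.comp_hasDerivAt (0 : ℝ) (hRd a b 0 w)
      have d2 : HasDerivAt (fun t => G σ v (Rt a b t w)) 0 0 := by
        have : (fun t => G σ v (Rt a b t w)) = fun _ => G σ v w := funext hc
        rw [this]
        exact hasDerivAt_const _ _
      have := d1.unique d2
      rwa [hR0] at this
    -- `Ag` is onto `P`
    obtain ⟨P, hP⟩ : ∃ P : Submodule ℝ E5, P = LinearMap.ker (pN κ : E5 →ₗ[ℝ] E5) := ⟨_, rfl⟩
    have hmP : ∀ x, x ∈ P ↔ pN κ x = 0 := by
      intro x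
      rw [hP]
      exact LinearMap.mem_ker
    have hmaps : ∀ x ∈ P, (Ag a b : E5 →ₗ[ℝ] E5) x ∈ P := by
      intro x _
      rw [hmP]
      change pN κ (Ag a b x) = 0
      rw [← hPA x, hNP]
    have hinj : Function.Injective ((Ag a b : E5 →ₗ[ℝ] E5).restrict hmaps) := by
      rw [injective_iff_map_eq_zero]
      rintro ⟨x, hx⟩ h0
      have h2 : Ag a b x = 0 := congrArg Subtype.val h0
      have h3 : pP κ x = 0 := (hker x).1 h2
      have h4 : x = 0 := by
        rw [← hsum κ x, (hmP x).1 hx, h3, add_zero]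
      exact Subtype.ext h4
    have hsurj := LinearMap.injective_iff_surjective.1 hinj
    obtain ⟨w', hw'⟩ := hsurj ⟨w, (hmP w).2 hw⟩
    have h5 : Ag a b w' = w := congrArg Subtype.val hw'
    rw [← h5]
    exact hA _
  · intro σ hσ hσ0 v w hv hw
    refine hfix' _ fun t => ?_
    have := h1 t σ hσ0 v w
    rw [hfix t σ hσ, hfix t v hv, hfix t w hw] at this
    exact this.symm

end Pool.Agent.MVS.H39
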