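import Pool.Agent.MVS.Stmts
import Pool.Agent.Helper36_RF.Chr

/-!
# MVS row NEX (MP_33f2b9_gt): the normal exponential map
-/

noncomputable section

open scoped ContDiff Topology RealInnerProductSpace
open Set MeasureTheory

namespace Pool.Agent.MVS.H39

open Pool.Agent.RF Pool.Agent.MVS

theorem nex : RotStatement → HexStatement → NexStatement := by
  rintro ⟨hsum, hperp, -, -, hPP, hNN, hPN, hNP, -⟩ hHex G κ a b ex Q hS hE hQ
  obtain ⟨hex1, hex2⟩ := hHex G ex hS.cyl hE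
  obtain ⟨F, hF⟩ : ∃ F : E5 → E5, F = fun z => ex (pN κ z, Q (pN κ z) (pP κ z)) := ⟨_, rfl⟩
  have hOo : IsOpen {z : E5 | pN κ z ≠ 0} := isOpen_ne_fun (pN κ).continuous continuous_const
  have hNσ : ∀ σ, pP κ σ = 0 → pN κ σ = σ := by
    intro σ hσ
    have := hsum κ σ
    rwa [hσ, add_zero] at this
  have hPy : ∀ y, pN κ y = 0 → pP κ y = y := by
    intro y hy
    have := hsum κ y
    rwa [hy, zero_add] at this
  have hsm : ContDiffOn ℝ ∞ F {z | pN κ z ≠ 0} := by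
    have h1 : ContDiffOn ℝ ∞ (fun z => Q (pN κ z)) {z | pN κ z ≠ 0} := by
      refine hQ.smooth.comp (pN κ).contDiff.contDiffOn fun z hz => ?_
      change pN κ (pN κ z) ≠ 0
      rw [hNN]
      exact hz
    have h2 : ContDiffOn ℝ ∞ (fun z => (pN κ z, Q (pN κ z) (pP κ z))) {z | pN κ z ≠ 0} :=
      (pN κ).contDiff.contDiffOn.prodMk (h1.clm_apply (pP κ).contDiff.contDiffOn)
    rw [hF]
    exact hE.smooth.comp h2 fun z hz => ⟨hz, trivial⟩
  have hdiff : ∀ z, pN κ z ≠ 0 → DifferentiableAt ℝ F z := fun z hz =>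
    ((hsm z hz).contDiffAt (hOo.mem_nhds hz)).differentiableAt (by simp)
  have hbase : ∀ σ, pP κ σ = 0 → σ ≠ 0 → F σ = σ := by
    intro σ hσ hσ0
    rw [hF]
    change ex (pN κ σ, Q (pN κ σ) (pP κ σ)) = σ
    rw [hNσ σ hσ, hσ, map_zero]
    exact hE.zero σ hσ0
  -- along the fibres
  have hfib : ∀ σ, pP κ σ = 0 → ∀ y, pN κ y = 0 → ∀ t : ℝ,
      F (σ + t • y) = ex (σ, t • Q σ y) := by
    intro σ hσ y hy t
    rw [hF]
    change ex (pN κ (σ + t • y), Q (pN κ (σ + t • y)) (pP κ (σ + t • y))) = _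
    rw [map_add, map_add, map_smul, map_smul, hy, hσ, hNσ σ hσ, hPy y hy, smul_zero, add_zero,
      zero_add, map_smul]
  have hpN : ∀ σ, pP κ σ = 0 → ∀ y, pN κ y = 0 → ∀ t : ℝ, pN κ (σ + t • y) = σ := by
    intro σ hσ y hy t
    rw [map_add, map_smul, hy, smul_zero, add_zero, hNσ σ hσ]
  have hline : ∀ (σ y : E5) (t : ℝ), HasDerivAt (fun s : ℝ => σ + s • y) y t := by
    intro σ y t
    have h1 : HasDerivAt (fun s : ℝ => s • y) ((1 : ℝ) • y) t := (hasDerivAt_id t).smul_const y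
    rw [one_smul] at h1
    exact h1.const_add σ
  have hder : ∀ σ, pP κ σ = 0 → σ ≠ 0 → ∀ y, pN κ y = 0 → ∀ t : ℝ,
      HasDerivAt (fun s : ℝ => ex (σ, s • Q σ y)) (fderiv ℝ F (σ + t • y) y) t := by
    intro σ hσ hσ0 y hy t
    have h1 : pN κ (σ + t • y) ≠ 0 := by
      rw [hpN σ hσ y hy t]
      exact hσ0
    have h2 : HasDerivAt (fun s : ℝ => F (σ + s • y)) (fderiv ℝ F (σ + t • y) y) t :=
      (hdiff _ h1).hasFDerivAt.comp_hasDerivAt t (hline σ y t)
    have h3 : (fun s : ℝ => F (σ + s • y)) = fun s : ℝ => ex (σ, s • Q σ y) :=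
      funext fun s => hfib σ hσ y hy s
    rwa [h3] at h2
  have hQw : ∀ σ, pP κ σ = 0 → σ ≠ 0 → ∀ w, pN κ w = 0 → fderiv ℝ F σ w = Q σ w := by
    intro σ hσ hσ0 w hw
    have h1 := (hder σ hσ hσ0 w hw 0).deriv
    rw [hE.init σ hσ0, zero_smul, add_zero] at h1
    exact h1.symm
  refine ⟨F, hsm, hbase, ?_, ?_, ?_, ?_, ?_, ?_⟩
  · intro z hz
    rw [hF]
    refine hex2 (pN κ z) hz _ ?_
    have h1 : pN κ (Q (pN κ z) (pP κ z)) = 0 := hQ.maps _ (hPN κ z) hz _ (hNP κ z)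
    have h2 := hPy _ h1
    rw [← h2]
    exact hperp κ z _
  · intro c hc z hz
    rw [hF]
    change ex (pN κ (c • pN κ z + pP κ z), Q (pN κ (c • pN κ z + pP κ z))
      (pP κ (c • pN κ z + pP κ z))) = c • ex (pN κ z, Q (pN κ z) (pP κ z))
    rw [map_add, map_add, map_smul, map_smul, hNN, hNP, hPN, hPP, smul_zero, add_zero, zero_add,
      hQ.hom c hc _ (hPN κ z) hz _ (hNP κ z)]
    exact hex1 c hc _ hz _
  · intro σ hσ hσ0 w hw
    have h1 : HasDerivAt (fun s : ℝ => F (σ + s • w)) (fderiv ℝ F σ w) 0 := by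
      have h2 : pN κ (σ + (0 : ℝ) • w) ≠ 0 := by
        rw [zero_smul, add_zero, hNσ σ hσ]
        exact hσ0
      have h3 := (hdiff _ h2).hasFDerivAt.comp_hasDerivAt (0 : ℝ) (hline σ w 0)
      rw [zero_smul, add_zero] at h3
      exact h3
    have h4 : (fun s : ℝ => F (σ + s • w)) =ᶠ[𝓝 0] fun s : ℝ => σ + s • w := by
      have h5 : Continuous fun s : ℝ => σ + s • w := by fun_prop
      have h6 : ∀ᶠ s : ℝ in 𝓝 0, σ + s • w ≠ 0 := by
        refine h5.continuousAt.eventually_ne ?_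
        rw [zero_smul, add_zero]
        exact hσ0
      filter_upwards [h6] with s hs
      refine hbase _ ?_ hs
      rw [map_add, map_smul, hσ, hw, smul_zero, add_zero]
    exact (h1.congr_of_eventuallyEq h4.symm).unique (hline σ w 0)
  · intro σ hσ hσ0 w hw
    rw [hQw σ hσ hσ0 w hw]
    exact hQ.maps σ hσ hσ0 w hw
  · intro σ hσ hσ0 w w' hw hw'
    rw [hQw σ hσ hσ0 w hw, hQw σ hσ hσ0 w' hw']
    exact hQ.ortho σ hσ hσ0 w w' hw hw'
  · intro σ hσ hσ0 y hy t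
    have h1 : pN κ (σ + t • y) ≠ 0 := by
      rw [hpN σ hσ y hy t]
      exact hσ0
    have h2 : deriv (fun s : ℝ => ex (σ, s • Q σ y)) = fun t => fderiv ℝ F (σ + t • y) y :=
      funext fun t => (hder σ hσ hσ0 y hy t).deriv
    have h3 : DifferentiableAt ℝ (fun z => fderiv ℝ F z y) (σ + t • y) := by
      have h4 : ContDiffAt ℝ ∞ F (σ + t • y) := (hsm _ h1).contDiffAt (hOo.mem_nhds h1)
      have h5 : DifferentiableAt ℝ (fderiv ℝ F) (σ + t • y) :=
        (h4.fderiv_right (m := ∞) (by simp)).differentiableAt (by simp)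
      exact h5.clm_apply (differentiableAt_const y)
    have h6 : HasDerivAt (fun s : ℝ => fderiv ℝ F (σ + s • y) y)
        (fderiv ℝ (fun z => fderiv ℝ F z y) (σ + t • y) y) t :=
      HasFDerivAt.comp_hasDerivAt (l := fun z => fderiv ℝ F z y) (f := fun s : ℝ => σ + s • y) t
        h3.hasFDerivAt (hline σ y t)
    have h7 := hE.geo σ hσ0 (Q σ y) t
    rw [h2, h6.deriv] at h7
    rw [h7, hfib σ hσ y hy t]

end Pool.Agent.MVS.H39
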